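import Pool.Agent.H10.PS.NF

/-!
# Palais-Smale without a bound on the energies

`RiemSurface`, `Sobolev`, `Sobolev.J` and `Sobolev.PalaisSmale` are the definitions of the library
(Pool.Graph.R_seed8.W787.PS).
-/

open MeasureTheory Filter Topology

noncomputable section

namespace Pool.Agent.Results.MP_577350_an.NoEnergyBound

open Pool.Agent.W787.PS

/-- The normalised elements of `H¹(M)`: those with `∫ h e^u = 1`. -/
def Normalised {M : Type} [TopologicalSpace M] [MeasurableSpace M] {X : RiemSurface M} {H : Type}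
    [NormedAddCommGroup H] [InnerProductSpace ℝ H] (m : Sobolev X H) (h : M → ℝ) : Set H :=
  {u | ∫ x, h x * Real.exp (m.rep u x) ∂X.vol = 1}

/-- The normalised critical points of `J`. -/
def Crit {M : Type} [TopologicalSpace M] [MeasurableSpace M] {X : RiemSurface M} {H : Type}
    [NormedAddCommGroup H] [InnerProductSpace ℝ H] (m : Sobolev X H) (h : M → ℝ) (lam : ℝ) :
    Set H := {u | u ∈ Normalised m h ∧ fderiv ℝ (m.J h lam) u = 0}

/-- Let `M` be a closed Riemannian surface of unit area, `h > 0` a smooth function and `lam > 0` a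
number which is not a multiple of `8 π`; let `H` be any realisation of `H¹(M)` (there is one). Then
`J` is differentiable on `H` and
(1) `J` has the Palais-Smale property of the question;
(2) the energies need not be bounded: every sequence of normalised `U n` with `J' (U n) → 0` in the
dual of `H¹(M)` has a subsequence which converges in `H¹(M)`, to a normalised critical point;
(3) there are `ε > 0` and `R` with `‖J' u‖ ≥ ε` for all normalised `u` with `‖u‖ > R`;
(4) for every `δ > 0` there is `ε > 0` such that every normalised `u` with `‖J' u‖ < ε` has a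
distance less than `δ` from some normalised critical point;
(5) the set of the normalised critical points is compact, and `J` is bounded on it. -/
theorem result (M : Type) [TopologicalSpace M] [T2Space M] [CompactSpace M] [ConnectedSpace M]
    [MeasurableSpace M] [BorelSpace M] (X : RiemSurface M) (h : M → ℝ) (lam : ℝ)
    (hh : X.Smooth h) (hpos : ∀ x, 0 < h x) (hlam : 0 < lam)
    (hN : ∀ k : ℕ, 1 ≤ k → lam ≠ 8 * Real.pi * k) :
    (∃ (H : Type) (_ : NormedAddCommGroup H) (_ : InnerProductSpace ℝ H),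
      Nonempty (Sobolev X H)) ∧
    ∀ (H : Type) [NormedAddCommGroup H] [InnerProductSpace ℝ H] (m : Sobolev X H),
      (∀ u, Integrable (fun x => Real.exp (m.rep u x)) X.vol) ∧
      Differentiable ℝ (m.J h lam) ∧
      m.PalaisSmale h lam ∧
      (∀ U : ℕ → H, (∀ n, U n ∈ Normalised m h) →
        Tendsto (fun n => ‖fderiv ℝ (m.J h lam) (U n)‖) atTop (𝓝 0) →
        ∃ V ∈ Crit m h lam, ∃ φ : ℕ → ℕ, StrictMono φ ∧
          Tendsto (fun k => U (φ k)) atTop (𝓝 V)) ∧
      (∃ ε R : ℝ, 0 < ε ∧ ∀ u ∈ Normalised m h, R < ‖u‖ → ε ≤ ‖fderiv ℝ (m.J h lam) u‖) ∧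
      (∀ δ : ℝ, 0 < δ → ∃ ε : ℝ, 0 < ε ∧ ∀ u ∈ Normalised m h,
        ‖fderiv ℝ (m.J h lam) u‖ < ε → ∃ v ∈ Crit m h lam, ‖u - v‖ < δ) ∧
      IsCompact (Crit m h lam) ∧ ∃ L : ℝ, ∀ u ∈ Crit m h lam, |m.J h lam u| ≤ L := by
  have hN' : ∀ k : ℕ, lam ≠ 8 * Real.pi * k := by
    intro k
    rcases Nat.eq_zero_or_pos k with rfl | hk
    · simpa using hlam.ne'
    · exact hN k hk
  obtain ⟨e1, e2⟩ := PalaisSmale.result M X h lam hh hpos hlam hN
  refine ⟨e1, ?_⟩
  intro H _ _ m
  obtain ⟨f1, f2, f3⟩ := e2 H m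
  have ne : ∀ U : ℕ → H, (∀ n, U n ∈ Normalised m h) →
      Tendsto (fun n => ‖fderiv ℝ (m.J h lam) (U n)‖) atTop (𝓝 0) →
      ∃ V ∈ Crit m h lam, ∃ φ : ℕ → ℕ, StrictMono φ ∧
        Tendsto (fun k => U (φ k)) atTop (𝓝 V) := by
    intro U hU hd
    obtain ⟨V, φ, hφ, hV, g1, g2⟩ := H10.PS.main M X h lam hh hpos hlam hN' m U hU hd
    exact ⟨V, ⟨g1, g2⟩, φ, hφ, hV⟩
  have hK : IsCompact (Crit m h lam) := by
    apply IsSeqCompact.isCompact
    intro U hU
    obtain ⟨V, hV, φ, hφ, hlim⟩ := ne U (fun n => (hU n).1) (by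
      have : (fun n => ‖fderiv ℝ (m.J h lam) (U n)‖) = fun _ => (0 : ℝ) := by
        funext n
        rw [(hU n).2]
        exact ContinuousLinearMap.opNorm_zero
      rw [this]
      exact tendsto_const_nhds)
    exact ⟨V, hV, φ, hφ, hlim⟩
  have hS : ∀ δ : ℝ, 0 < δ → ∃ ε : ℝ, 0 < ε ∧ ∀ u ∈ Normalised m h,
      ‖fderiv ℝ (m.J h lam) u‖ < ε → ∃ v ∈ Crit m h lam, ‖u - v‖ < δ := by
    intro δ hδ
    by_contra hcon
    push Not at hcon
    have h1 : ∀ n : ℕ, ∃ u ∈ Normalised m h, ‖fderiv ℝ (m.J h lam) u‖ < 1 / ((n : ℝ) + 1) ∧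
        ∀ v ∈ Crit m h lam, δ ≤ ‖u - v‖ := fun n => hcon _ (by positivity)
    choose U hU1 hU2 hU3 using h1
    have h2 : Tendsto (fun n => ‖fderiv ℝ (m.J h lam) (U n)‖) atTop (𝓝 0) :=
      squeeze_zero (fun n => norm_nonneg _) (fun n => (hU2 n).le)
        tendsto_one_div_add_atTop_nhds_zero_nat
    obtain ⟨V, hV, φ, hφ, hlim⟩ := ne U hU1 h2
    obtain ⟨k, hk⟩ := ((Metric.tendsto_nhds.1 hlim) δ hδ).exists
    rw [dist_eq_norm] at hk
    exact absurd (hU3 (φ k) V hV) (not_le.2 hk)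
  obtain ⟨C, hC⟩ := hK.isBounded.exists_norm_le
  refine ⟨f1, f2, f3, ne, ?_, hS, hK, ?_⟩
  · obtain ⟨ε, hε, hε2⟩ := hS 1 one_pos
    refine ⟨ε, C + 1, hε, ?_⟩
    intro u hu hR
    by_contra hcon
    push Not at hcon
    obtain ⟨v, hv, hlt⟩ := hε2 u hu hcon
    have h3 := hC v hv
    have h4 : ‖u‖ ≤ ‖u - v‖ + ‖v‖ := by
      have := norm_add_le (u - v) v
      rwa [sub_add_cancel] at this
    linarith
  · obtain ⟨L, hL⟩ := hK.exists_bound_of_continuousOn f2.continuous.continuousOn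
    exact ⟨L, fun u hu => hL u hu⟩

end Pool.Agent.Results.MP_577350_an.NoEnergyBound
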